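import Mathlib

open Filter Topology Finset

namespace Pool.Agent.Results.MP_037b14_pr.MonotoneFails

/-! ### The game -/

section game

variable {V : Type} [DecidableEq V]

/-- `catchProb G c r tc tr cop rob n s u v` is the probability that the cop meets the robber within
the next `n` steps, when at time `s` the cop stands at `u` and the robber at `v`, computed by
conditioning on the first step: the four kinds of moves (sober cop, sober robber, tipsy cop,
tipsy robber) have probabilities `c`, `r`, `tc`, `tr`. -/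
noncomputable def catchProb (G : SimpleGraph V) [G.LocallyFinite] (c r tc tr : ℝ)
    (cop rob : ℕ → V → V → V) : ℕ → ℕ → V → V → ℝ
  | 0, _, u, v => if u = v then 1 else 0
  | n + 1, s, u, v => if u = v then 1 else
      c * catchProb G c r tc tr cop rob n (s + 1) (cop s u v) v
      + r * catchProb G c r tc tr cop rob n (s + 1) u (rob s u v)
      + tc * ((∑ u' ∈ G.neighborFinset u, catchProb G c r tc tr cop rob n (s + 1) u' v)
          / G.degree u)
      + tr * ((∑ v' ∈ G.neighborFinset v, catchProb G c r tc tr cop rob n (s + 1) u v')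
          / G.degree v)

/-- Cop strategies: `c_s(u,v) ∈ {u} ∪ N(u)`. -/
def IsCopStrategy (G : SimpleGraph V) (cop : ℕ → V → V → V) : Prop :=
  ∀ s u v, cop s u v = u ∨ G.Adj u (cop s u v)

/-- Robber strategies: `r_s(u,v) ∈ N(v)`. -/
def IsRobberStrategy (G : SimpleGraph V) (rob : ℕ → V → V → V) : Prop :=
  ∀ s u v, G.Adj v (rob s u v)

/-- Monotone cop strategies: sober moves never increase the distance to the robber. -/
def IsMonotone (G : SimpleGraph V) (cop : ℕ → V → V → V) : Prop :=
  ∀ s u v, G.dist (cop s u v) v ≤ G.dist u v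

/-- A cop strategy is winning from the starting position `(C₀, R₀)` if against every robber
strategy the cop meets the robber almost surely, i.e. the probability that they meet within
`n` steps tends to `1`. -/
def IsWinning (G : SimpleGraph V) [G.LocallyFinite] (c r tc tr : ℝ) (C₀ R₀ : V)
    (cop : ℕ → V → V → V) : Prop :=
  ∀ rob : ℕ → V → V → V, IsRobberStrategy G rob →
    Tendsto (fun n => catchProb G c r tc tr cop rob n 0 C₀ R₀) atTop (𝓝 1)

end game

/-! ### Averages -/

section avg

variable {V : Type}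

lemma avg_le (S : Finset V) (h : V → ℝ) (b : ℝ) (hb : 0 ≤ b) (hh : ∀ x ∈ S, h x ≤ b) :
    (∑ x ∈ S, h x) / (S.card : ℝ) ≤ b := by
  rcases S.eq_empty_or_nonempty with rfl | hS
  · simpa using hb
  · have hc : (0 : ℝ) < S.card := by exact_mod_cast hS.card_pos
    rw [div_le_iff₀ hc]
    calc ∑ x ∈ S, h x ≤ ∑ _x ∈ S, b := Finset.sum_le_sum hh
      _ = b * S.card := by rw [Finset.sum_const, nsmul_eq_mul, mul_comm]

lemma avg_le' [DecidableEq V] (S T U : Finset V) (h : V → ℝ) (α : ℝ) (hα : 0 ≤ α) (hT : T ⊆ S)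
    (hTne : T.Nonempty) (hSU : S ⊆ T ∪ U)
    (h1 : ∀ x ∈ T, h x ≤ α) (h2 : ∀ x, h x ≤ 1) :
    (∑ x ∈ S, h x) / (S.card : ℝ) ≤ α + (U.card : ℝ) / (T.card : ℝ) := by
  have hTc : (0 : ℝ) < T.card := by exact_mod_cast hTne.card_pos
  have hTS : (T.card : ℝ) ≤ S.card := by exact_mod_cast Finset.card_le_card hT
  have hSc : (0 : ℝ) < S.card := lt_of_lt_of_le hTc hTS
  have hsum : ∑ x ∈ S, h x ≤ α * S.card + U.card := by
    rw [← Finset.sum_sdiff hT]
    have e1 : ∑ x ∈ S \ T, h x ≤ U.card := by
      calc ∑ x ∈ S \ T, h x ≤ ∑ _x ∈ S \ T, (1 : ℝ) := Finset.sum_le_sum (fun x _ => h2 x)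
        _ = (S \ T).card := by simp
        _ ≤ U.card := by
            have : S \ T ⊆ U := by
              intro x hx
              rw [Finset.mem_sdiff] at hx
              rcases Finset.mem_union.1 (hSU hx.1) with h | h
              · exact absurd h hx.2
              · exact h
            exact_mod_cast Finset.card_le_card this
    have e2 : ∑ x ∈ T, h x ≤ α * S.card := by
      calc ∑ x ∈ T, h x ≤ ∑ _x ∈ T, α := Finset.sum_le_sum h1
        _ = α * T.card := by rw [Finset.sum_const, nsmul_eq_mul, mul_comm]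
        _ ≤ α * S.card := mul_le_mul_of_nonneg_left hTS hα
    linarith
  have hU : (0 : ℝ) ≤ U.card := by positivity
  calc (∑ x ∈ S, h x) / (S.card : ℝ) ≤ (α * S.card + U.card) / S.card := by gcongr
    _ = α + U.card / S.card := by field_simp
    _ ≤ α + U.card / T.card := by gcongr

end avg

section general

variable {V : Type} [DecidableEq V]

lemma catchProb_le_one (G : SimpleGraph V) [G.LocallyFinite] (c r tc tr : ℝ)
    (hc : 0 ≤ c) (hr : 0 ≤ r) (htc : 0 ≤ tc) (htr : 0 ≤ tr) (hs : c + r + tc + tr = 1)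
    (cop rob : ℕ → V → V → V) (n : ℕ) : ∀ s u v, catchProb G c r tc tr cop rob n s u v ≤ 1 := by
  induction n with
  | zero => intro s u v; rw [catchProb]; split_ifs <;> norm_num
  | succ n ih =>
    intro s u v
    rw [catchProb]
    split_ifs
    · exact le_rfl
    · have a1 := ih (s + 1) (cop s u v) v
      have a2 := ih (s + 1) u (rob s u v)
      have a3 := avg_le (G.neighborFinset u) (fun u' => catchProb G c r tc tr cop rob n (s + 1) u' v)
        1 zero_le_one (fun x _ => ih _ _ _)
      have a4 := avg_le (G.neighborFinset v) (fun v' => catchProb G c r tc tr cop rob n (s + 1) u v')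
        1 zero_le_one (fun x _ => ih _ _ _)
      rw [SimpleGraph.card_neighborFinset_eq_degree] at a3 a4
      have b1 := mul_le_mul_of_nonneg_left a1 hc
      have b2 := mul_le_mul_of_nonneg_left a2 hr
      have b3 := mul_le_mul_of_nonneg_left a3 htc
      have b4 := mul_le_mul_of_nonneg_left a4 htr
      linarith

end general

/-! ### The graph -/

/-- Length of the `j`-th leg. -/
def M : ℕ → ℕ
  | 0 => 0
  | j + 1 => j + 4

/-- Size of the `j`-th layer. -/
def sz (j : ℕ) : ℕ := 2 ^ ((j + 3) ^ 2)

lemma sz_pos (j : ℕ) : 0 < sz j := by unfold sz; positivity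

/-- Vertices: `P j a` is the vertex of height `a` on the `j`-th leg (`P j 0` is the `j`-th vertex
of the ray, `P 0 0` is the origin), `W j x` is the `x`-th vertex of the `j`-th layer. -/
inductive Vx : Type
  | P (j a : ℕ) (h : a ≤ M j) : Vx
  | W (j x : ℕ) (h : x < sz j) : Vx
  deriving DecidableEq

open Vx

/-- Adjacency. -/
def adj : Vx → Vx → Prop
  | .P j a _, .P j' a' _ =>
      (j = j' ∧ (a' = a + 1 ∨ a = a' + 1)) ∨ (a = 0 ∧ a' = 0 ∧ (j' = j + 1 ∨ j = j' + 1))
  | .P j a _, .W j' _ _ => (a = M j ∧ j = j' + 1) ∨ (j = 0 ∧ j' = 0)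
  | .W j _ _, .P j' a' _ => (a' = M j' ∧ j' = j + 1) ∨ (j' = 0 ∧ j = 0)
  | .W j _ _, .W j' _ _ => j' = j + 1 ∨ j = j' + 1

/-- The graph. -/
def G : SimpleGraph Vx where
  Adj := adj
  symm := ⟨by
    intro u v h
    cases u <;> cases v <;> simp only [adj] at h ⊢ <;> omega⟩
  loopless := ⟨by
    intro u h
    cases u <;> simp only [adj] at h <;> omega⟩

lemma G_adj (u v : Vx) : G.Adj u v ↔ adj u v := Iff.rfl

/-- The `j`-th layer. -/
def lay (j : ℕ) : Finset Vx :=
  (Finset.univ : Finset (Fin (sz j))).image (fun x => Vx.W j x.1 x.2)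

/-- The `j`-th leg. -/
def leg (j : ℕ) : Finset Vx :=
  (Finset.univ : Finset (Fin (M j + 1))).image (fun a => Vx.P j a.1 (Nat.lt_succ_iff.1 a.2))

lemma mem_lay_W (j j' x h) : Vx.W j' x h ∈ lay j ↔ j' = j := by
  simp only [lay, Finset.mem_image, Finset.mem_univ, true_and, Vx.W.injEq]
  constructor
  · rintro ⟨a, h1, _⟩; exact h1.symm
  · rintro rfl; exact ⟨⟨x, h⟩, rfl, rfl⟩

lemma mem_lay_P (j j' a h) : Vx.P j' a h ∉ lay j := by
  simp [lay]

lemma mem_leg_P (j j' a h) : Vx.P j' a h ∈ leg j ↔ j' = j := by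
  simp only [leg, Finset.mem_image, Finset.mem_univ, true_and, Vx.P.injEq]
  constructor
  · rintro ⟨a, h1, _⟩; exact h1.symm
  · rintro rfl; exact ⟨⟨a, Nat.lt_succ_iff.2 h⟩, rfl, rfl⟩

lemma card_lay (j : ℕ) : (lay j).card = sz j := by
  rw [lay, Finset.card_image_of_injective]
  · simp
  · intro a b hab
    simp only [Vx.W.injEq, true_and] at hab
    exact Fin.ext hab

/-- The index of a vertex. -/
def idx : Vx → ℕ
  | .P j _ _ => j
  | .W j _ _ => j

/-- Finite ball-like sets. -/
def big (k : ℕ) : Finset Vx := (Finset.range (k + 1)).biUnion (fun j => lay j ∪ leg j)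

lemma mem_big (k : ℕ) (u : Vx) : u ∈ big k ↔ idx u ≤ k := by
  simp only [big, Finset.mem_biUnion, Finset.mem_range, Finset.mem_union]
  cases u with
  | P j a h =>
    simp only [mem_lay_P, mem_leg_P, idx, false_or]
    constructor
    · rintro ⟨i, hi, rfl⟩; omega
    · intro h; exact ⟨j, by omega, rfl⟩
  | W j x h =>
    simp only [mem_lay_W, idx]
    constructor
    · rintro ⟨i, hi, h2⟩
      rcases h2 with h2 | h2
      · omega
      · exfalso
        simp [leg] at h2
    · intro h; exact ⟨j, by omega, Or.inl rfl⟩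

lemma adj_idx (u v : Vx) (h : G.Adj u v) : idx v ≤ idx u + 1 := by
  rw [G_adj] at h
  cases u <;> cases v <;> simp only [adj, idx] at h ⊢ <;> omega

lemma fin_nbh (u : Vx) : (G.neighborSet u).Finite := by
  refine Set.Finite.subset (big (idx u + 1)).finite_toSet ?_
  intro v hv
  rw [SimpleGraph.mem_neighborSet] at hv
  rw [Finset.mem_coe, mem_big]
  exact adj_idx u v hv

noncomputable instance locFin : G.LocallyFinite := fun u => (fin_nbh u).fintype

/-- The origin. -/
def o : Vx := Vx.P 0 0 (by simp [M])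

/-! ### Connectedness -/

lemma reach_ray (j : ℕ) : G.Reachable o (Vx.P j 0 (Nat.zero_le _)) := by
  induction j with
  | zero => exact SimpleGraph.Reachable.refl _
  | succ j ih =>
    refine ih.trans (SimpleGraph.Adj.reachable ?_)
    rw [G_adj]; simp [adj]

lemma reach_leg (j a : ℕ) : ∀ h : a ≤ M j, G.Reachable o (Vx.P j a h) := by
  induction a with
  | zero => intro h; exact reach_ray j
  | succ a ih =>
    intro h
    refine (ih (by omega)).trans (SimpleGraph.Adj.reachable ?_)
    rw [G_adj]; simp [adj]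

lemma reach_lay (j : ℕ) : ∀ x h, G.Reachable o (Vx.W j x h) := by
  induction j with
  | zero =>
    intro x h
    refine SimpleGraph.Adj.reachable ?_
    rw [G_adj]; simp [adj, o]
  | succ j ih =>
    intro x h
    refine (ih 0 (sz_pos j)).trans (SimpleGraph.Adj.reachable ?_)
    rw [G_adj]; simp [adj]

lemma reach (u : Vx) : G.Reachable o u := by
  cases u with
  | P j a h => exact reach_leg j a h
  | W j x h => exact reach_lay j x h

lemma G_conn : G.Connected where
  preconnected := fun u v => (reach u).symm.trans (reach v)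
  nonempty := ⟨o⟩

/-! ### Distances -/

/-- The distance to the origin (only the bounds below are proved). -/
def D : Vx → ℕ
  | .P j a _ => if a = 0 then j else j + 1
  | .W j _ _ => j + 1

lemma D_lip (u v : Vx) (h : G.Adj u v) : D u ≤ D v + 1 := by
  rw [G_adj] at h
  cases u with
  | P j a h1 =>
    cases v with
    | P j' a' h2 => simp only [adj, D] at h ⊢; split_ifs <;> omega
    | W j' x' h2 => simp only [adj, D] at h ⊢; split_ifs <;> omega
  | W j x h1 =>
    cases v with
    | P j' a' h2 => simp only [adj, D] at h ⊢; split_ifs <;> omega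
    | W j' x' h2 => simp only [adj, D] at h ⊢; omega

lemma D_walk {u v : Vx} (w : G.Walk u v) : D u ≤ D v + w.length := by
  induction w with
  | nil => simp
  | cons h p ih =>
    have := D_lip _ _ h
    rw [SimpleGraph.Walk.length_cons]
    omega

lemma D_le_dist (u : Vx) : D u ≤ G.dist u o := by
  obtain ⟨w, hw⟩ := (G_conn.preconnected u o).exists_walk_length_eq_dist
  have := D_walk w
  rw [hw] at this
  simpa [D, o] using this

lemma dist_lay (j : ℕ) : ∀ x h, G.dist (Vx.W j x h) o ≤ j + 1 := by
  induction j with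
  | zero =>
    intro x h
    have ha : G.Adj (Vx.W 0 x h) o := by rw [G_adj]; simp [adj, o]
    rw [SimpleGraph.dist_eq_one_iff_adj.2 ha]
  | succ j ih =>
    intro x h
    have ha : G.Adj (Vx.W (j + 1) x h) (Vx.W j 0 (sz_pos j)) := by rw [G_adj]; simp [adj]
    calc G.dist (Vx.W (j + 1) x h) o
        ≤ G.dist (Vx.W (j + 1) x h) (Vx.W j 0 (sz_pos j)) + G.dist (Vx.W j 0 (sz_pos j)) o :=
          G_conn.dist_triangle
      _ ≤ 1 + (j + 1) := by
          rw [SimpleGraph.dist_eq_one_iff_adj.2 ha]
          exact Nat.add_le_add_left (ih 0 _) 1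
      _ = j + 1 + 1 := by ring

/-! ### Monotone strategies fail -/

/-- Upper bound for the success probability of monotone strategies. -/
noncomputable def f : Vx → ℝ
  | .P _ _ _ => 1
  | .W j _ _ => (3 / 4) ^ (j + 1)

lemma f_le_one (u : Vx) : f u ≤ 1 := by
  cases u with
  | P j a h => exact le_rfl
  | W j x h => exact pow_le_one₀ (by norm_num) (by norm_num)

/-- The tip of the `(j+1)`-st leg. -/
def tip (j : ℕ) : Vx := Vx.P (j + 1) (M (j + 1)) le_rfl

lemma sober_bound (j x h) (w : Vx) (hw : w = Vx.W j x h ∨ G.Adj (Vx.W j x h) w)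
    (hd : G.dist w o ≤ G.dist (Vx.W j x h) o) : f w ≤ (3 / 4) ^ j := by
  have hW : ∀ i : ℕ, j ≤ i → ((3 : ℝ) / 4) ^ i ≤ (3 / 4) ^ j := fun i hi =>
    pow_le_pow_of_le_one (by norm_num) (by norm_num) hi
  rcases hw with rfl | hw
  · exact hW (j + 1) (by omega)
  · rw [G_adj] at hw
    cases w with
    | P j' a' h' =>
      simp only [adj] at hw
      rcases hw with ⟨h1, h2⟩ | ⟨h1, h2⟩
      · exfalso
        have e1 := D_le_dist (Vx.P j' a' h')
        have e2 := dist_lay j x h
        have e3 : a' ≠ 0 := by rw [h1, h2]; simp [M]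
        simp only [D, e3, if_false] at e1
        omega
      · rw [h2]; simp [f]
    | W j' x' h' =>
      simp only [adj] at hw
      simp only [f]
      exact hW (j' + 1) (by omega)

lemma tipsy_bound (j x h) (g : Vx → ℝ) (h1 : ∀ w, g w ≤ f w) :
    (∑ w ∈ G.neighborFinset (Vx.W j x h), g w) / (G.degree (Vx.W j x h) : ℝ)
      ≤ (3 / 4) ^ (j + 2) + ((sz j : ℝ) + 2) / sz (j + 1) := by
  rw [← SimpleGraph.card_neighborFinset_eq_degree]
  have key := avg_le' (G.neighborFinset (Vx.W j x h)) (lay (j + 1))
    ({tip j, o} ∪ lay (j - 1)) g ((3 / 4) ^ (j + 2)) (by positivity) ?_ ?_ ?_ ?_ ?_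
  · refine key.trans ?_
    rw [card_lay]
    have hc : ((({tip j, o} ∪ lay (j - 1) : Finset Vx)).card : ℝ) ≤ (sz j : ℝ) + 2 := by
      have e1 : ({tip j, o} ∪ lay (j - 1) : Finset Vx).card ≤ sz j + 2 := by
        refine (Finset.card_union_le _ _).trans ?_
        rw [card_lay]
        have e2 : ({tip j, o} : Finset Vx).card ≤ 2 := Finset.card_le_two
        have e3 : sz (j - 1) ≤ sz j := by
          unfold sz
          apply Nat.pow_le_pow_right (by norm_num)
          apply Nat.pow_le_pow_left
          omega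
        omega
      exact_mod_cast e1
    gcongr
  · intro w hw
    rw [SimpleGraph.mem_neighborFinset, G_adj]
    cases w with
    | P j' a' h' => exact absurd hw (mem_lay_P _ _ _ _)
    | W j' x' h' => rw [mem_lay_W] at hw; simp [adj, hw]
  · rw [← Finset.card_pos, card_lay]; exact sz_pos _
  · intro w hw
    rw [SimpleGraph.mem_neighborFinset, G_adj] at hw
    simp only [Finset.mem_union, Finset.mem_insert, Finset.mem_singleton]
    cases w with
    | P j' a' h' =>
      simp only [adj] at hw
      rcases hw with ⟨h1, h2⟩ | ⟨h1, h2⟩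
      · subst h2; subst h1
        right; left; left; rfl
      · subst h1
        have : a' = 0 := by simpa [M] using h'
        subst this
        right; left; right; rfl
    | W j' x' h' =>
      simp only [adj] at hw
      rw [mem_lay_W, mem_lay_W]
      rcases hw with h1 | h1
      · left; exact h1
      · right; right; omega
  · intro w hw
    cases w with
    | P j' a' h' => exact absurd hw (mem_lay_P _ _ _ _)
    | W j' x' h' =>
      rw [mem_lay_W] at hw
      subst hw
      exact h1 _
  · intro w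
    exact (h1 w).trans (f_le_one w)

lemma sz_bound (j : ℕ) : ((sz j : ℝ) + 2) / sz (j + 1) ≤ (3 / 4) ^ j / 16 := by
  have h0 : (1 : ℝ) ≤ sz j := by exact_mod_cast sz_pos j
  have h1 : (sz (j + 1) : ℝ) = sz j * (128 * 4 ^ j) := by
    unfold sz
    push_cast
    have : (j + 1 + 3) ^ 2 = (j + 3) ^ 2 + (7 + 2 * j) := by ring
    rw [this, pow_add, pow_add, pow_mul]
    norm_num
  have h2 : (1 : ℝ) ≤ 3 ^ j := one_le_pow₀ (by norm_num)
  rw [h1, div_le_iff₀ (by positivity)]
  have h3 : ((3 : ℝ) / 4) ^ j / 16 * (sz j * (128 * 4 ^ j)) = 8 * sz j * 3 ^ j := by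
    rw [div_pow]; field_simp; ring
  rw [h3]
  nlinarith

lemma monotone_bound (cop rob : ℕ → Vx → Vx → Vx) (hcop : IsCopStrategy G cop)
    (hmon : IsMonotone G cop) (n : ℕ) :
    ∀ s u, catchProb G (1 / 3) 0 (2 / 3) 0 cop rob n s u o ≤ f u := by
  induction n with
  | zero =>
    intro s u
    rw [catchProb]
    cases u with
    | P j a h => simp only [f]; split_ifs <;> norm_num
    | W j x h => rw [if_neg (by simp [o])]; simp only [f]; positivity
  | succ n ih =>
    intro s u
    cases u with
    | P j a h =>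
      exact catchProb_le_one G _ _ _ _ (by norm_num) (by norm_num) (by norm_num) (by norm_num)
        (by norm_num) cop rob (n + 1) s _ o
    | W j x h =>
      rw [catchProb, if_neg (by simp [o])]
      have e1 : catchProb G (1 / 3) 0 (2 / 3) 0 cop rob n (s + 1) (cop s (Vx.W j x h) o) o
          ≤ (3 / 4) ^ j := (ih _ _).trans (sober_bound j x h _ (hcop _ _ _) (hmon _ _ _))
      have e2 := tipsy_bound j x h
        (fun u' => catchProb G (1 / 3) 0 (2 / 3) 0 cop rob n (s + 1) u' o) (fun w => ih _ _)
      have e3 := sz_bound j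
      simp only [f]
      have e4 : ((3 : ℝ) / 4) ^ (j + 2) = (3 / 4) ^ j * (9 / 16) := by rw [pow_add]; norm_num
      have e5 : ((3 : ℝ) / 4) ^ (j + 1) = (3 / 4) ^ j * (3 / 4) := by rw [pow_succ]
      have e6 : (0 : ℝ) < (3 / 4) ^ j := by positivity
      rw [e4] at e2
      rw [e5]
      linarith

/-! ### A winning strategy -/

/-- The winning strategy: on a leg or on the ray walk towards the origin; on a layer step to the
tip of the next leg. -/
def sig : Vx → Vx
  | .P 0 0 h => .P 0 0 h
  | .P (j + 1) 0 _ => .P j 0 (Nat.zero_le _)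
  | .P j (a + 1) h => .P j a (by omega)
  | .W j _ _ => tip j

lemma sig_adj (u : Vx) : sig u = u ∨ G.Adj u (sig u) := by
  cases u with
  | P j a h =>
    cases a with
    | zero =>
      cases j with
      | zero => left; rfl
      | succ j => right; rw [G_adj]; simp [adj, sig]
    | succ a => right; rw [G_adj]; simp [adj, sig]
  | W j x h => right; rw [G_adj]; simp [adj, sig, tip]

/-- One step operator for the failure probability. -/
noncomputable def T (g : Vx → ℝ) (u : Vx) : ℝ :=
  if u = o then 0 else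
    1 / 3 * g (sig u) + 2 / 3 * ((∑ w ∈ G.neighborFinset u, g w) / (G.degree u : ℝ))

lemma T_mono (g g' : Vx → ℝ) (h : ∀ u, g u ≤ g' u) (u : Vx) : T g u ≤ T g' u := by
  unfold T
  split_ifs
  · exact le_rfl
  · have := h (sig u)
    have h2 : ∑ w ∈ G.neighborFinset u, g w ≤ ∑ w ∈ G.neighborFinset u, g' w :=
      Finset.sum_le_sum (fun w _ => h w)
    gcongr

lemma T_smul (t : ℝ) (g : Vx → ℝ) (u : Vx) : T (fun w => t * g w) u = t * T g u := by
  unfold T
  split_ifs
  · simp
  · rw [← Finset.mul_sum]; ring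

/-- Failure probabilities. -/
noncomputable def q : ℕ → Vx → ℝ
  | 0 => fun u => if u = o then 0 else 1
  | n + 1 => T (q n)

lemma q_nonneg (n : ℕ) : ∀ u, 0 ≤ q n u := by
  induction n with
  | zero => intro u; simp only [q]; split_ifs <;> norm_num
  | succ n ih =>
    intro u
    simp only [q, T]
    split_ifs
    · exact le_rfl
    · have h1 := ih (sig u)
      have h2 : 0 ≤ ∑ w ∈ G.neighborFinset u, q n w := Finset.sum_nonneg (fun w _ => ih w)
      positivity

lemma q_o (n : ℕ) : q n o = 0 := by
  cases n <;> simp [q, T]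

lemma T_le_of_le_one (g : Vx → ℝ) (h : ∀ u, g u ≤ 1) (u : Vx) :
    T g u ≤ 1 / 3 * max 0 (g (sig u)) + 2 / 3 := by
  unfold T
  have h3 : 0 ≤ max 0 (g (sig u)) := le_max_left _ _
  split_ifs
  · linarith
  · have h1 := avg_le (G.neighborFinset u) g 1 zero_le_one (fun w _ => h w)
    rw [SimpleGraph.card_neighborFinset_eq_degree] at h1
    have h2 : g (sig u) ≤ max 0 (g (sig u)) := le_max_right _ _
    linarith

lemma q_le_one (n : ℕ) : ∀ u, q n u ≤ 1 := by
  induction n with
  | zero => intro u; simp only [q]; split_ifs <;> norm_num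
  | succ n ih =>
    intro u
    have h1 := T_le_of_le_one (q n) ih u
    have h2 : max 0 (q n (sig u)) ≤ 1 := max_le zero_le_one (ih _)
    simp only [q]
    linarith

lemma q_anti_step (n : ℕ) : ∀ u, q (n + 1) u ≤ q n u := by
  induction n with
  | zero =>
    intro u
    by_cases h : u = o
    · subst h; rw [q_o, q_o]
    · have := q_le_one 1 u
      simpa [q, h] using this
  | succ n ih => intro u; exact T_mono _ _ ih u

lemma deg_pos (u : Vx) (hu : u ≠ o) : (0 : ℝ) < G.degree u := by
  have : 0 < G.degree u := by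
    rw [SimpleGraph.degree_pos_iff_exists_adj]
    rcases sig_adj u with h | h
    · exfalso
      cases u with
      | P j a h' =>
        cases a with
        | zero =>
          cases j with
          | zero => exact hu rfl
          | succ j => simp [sig] at h
        | succ a => simp [sig] at h
      | W j x h' => simp [sig, tip] at h
    · exact ⟨_, h⟩
  exact_mod_cast this

lemma catch_eq (rob : ℕ → Vx → Vx → Vx) (n : ℕ) :
    ∀ s u, catchProb G (1 / 3) 0 (2 / 3) 0 (fun _ u _ => sig u) rob n s u o = 1 - q n u := by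
  induction n with
  | zero => intro s u; rw [catchProb]; simp only [q]; split_ifs <;> norm_num
  | succ n ih =>
    intro s u
    rw [catchProb]
    simp only [q, T]
    split_ifs with h
    · norm_num
    · have hd := deg_pos u h
      rw [ih]
      simp only [ih]
      rw [Finset.sum_sub_distrib, sub_div]
      have : (∑ _w ∈ G.neighborFinset u, (1 : ℝ)) / (G.degree u : ℝ) = 1 := by
        rw [Finset.sum_const, SimpleGraph.card_neighborFinset_eq_degree]
        simp only [nsmul_eq_mul, mul_one]
        exact div_self hd.ne'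
      rw [this]
      ring

lemma nbh_ray (j : ℕ) : G.neighborFinset (Vx.P (j + 1) 0 (Nat.zero_le _)) =
    {Vx.P j 0 (Nat.zero_le _), Vx.P (j + 2) 0 (Nat.zero_le _),
      Vx.P (j + 1) 1 (by simp [M])} := by
  ext w
  rw [SimpleGraph.mem_neighborFinset, G_adj]
  simp only [Finset.mem_insert, Finset.mem_singleton]
  cases w with
  | P j' a' h' =>
    simp only [adj, Vx.P.injEq]
    constructor
    · rintro (⟨h1, h2 | h2⟩ | ⟨_, h1, h2 | h2⟩)
      · right; right; omega
      · omega
      · right; left; omega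
      · left; omega
    · rintro (⟨h1, h2⟩ | ⟨h1, h2⟩ | ⟨h1, h2⟩)
      · right; exact ⟨by trivial, h2, Or.inr (by omega)⟩
      · right; exact ⟨by trivial, h2, Or.inl (by omega)⟩
      · left; exact ⟨h1.symm, Or.inl (by omega)⟩
  | W j' x' h' => simp [adj, M]

lemma nbh_leg (j a : ℕ) (h : a + 2 ≤ M j) :
    G.neighborFinset (Vx.P j (a + 1) (by omega)) =
      {Vx.P j a (by omega), Vx.P j (a + 2) h} := by
  ext w
  rw [SimpleGraph.mem_neighborFinset, G_adj]
  simp only [Finset.mem_insert, Finset.mem_singleton]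
  cases w with
  | P j' a' h' => simp only [adj, Vx.P.injEq]; omega
  | W j' x' h' =>
    simp only [adj]
    constructor
    · rintro (⟨h1, _⟩ | ⟨h1, _⟩)
      · omega
      · subst h1; simp [M] at h
    · intro h1; simp at h1

lemma T_ray (g : Vx → ℝ) (j : ℕ) : T g (Vx.P (j + 1) 0 (Nat.zero_le _)) =
    5 / 9 * g (Vx.P j 0 (Nat.zero_le _)) + 2 / 9 * g (Vx.P (j + 2) 0 (Nat.zero_le _))
      + 2 / 9 * g (Vx.P (j + 1) 1 (by simp [M])) := by
  unfold T
  rw [if_neg (by simp [o]), ← SimpleGraph.card_neighborFinset_eq_degree, nbh_ray]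
  rw [Finset.sum_insert (by simp), Finset.sum_insert (by simp), Finset.sum_singleton]
  rw [Finset.card_insert_of_notMem (by simp), Finset.card_insert_of_notMem (by simp),
    Finset.card_singleton]
  simp only [sig]
  push_cast
  ring

lemma T_leg (g : Vx → ℝ) (j a : ℕ) (h : a + 2 ≤ M j) :
    T g (Vx.P j (a + 1) (by omega)) =
      2 / 3 * g (Vx.P j a (by omega)) + 1 / 3 * g (Vx.P j (a + 2) h) := by
  unfold T
  rw [if_neg (by simp [o]), ← SimpleGraph.card_neighborFinset_eq_degree, nbh_leg j a h]
  rw [Finset.sum_insert (by simp), Finset.sum_singleton]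
  rw [Finset.card_insert_of_notMem (by simp), Finset.card_singleton]
  simp only [sig]
  push_cast
  ring

/-- Limit bound on the ray. -/
noncomputable def F0 (j : ℕ) : ℝ := 1 / 4 - (1 / 2) ^ j / 6

lemma F0_pos (j : ℕ) : 0 ≤ F0 j := by
  unfold F0
  have : ((1 : ℝ) / 2) ^ j ≤ 1 := pow_le_one₀ (by norm_num) (by norm_num)
  linarith

lemma F0_le (j : ℕ) : F0 j ≤ 1 / 4 := by
  unfold F0
  have : (0 : ℝ) < (1 / 2) ^ j := by positivity
  linarith

/-- Bound for the failure probability on the legs. -/
noncomputable def Fl (j a : ℕ) : ℝ := F0 j + if a = 0 then 0 else (1 / 2) ^ (M j - a)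

lemma Fl_nonneg (j a : ℕ) : 0 ≤ Fl j a := by
  unfold Fl
  have := F0_pos j
  split_ifs
  · linarith
  · positivity

lemma q_bound (n : ℕ) : ∀ j a h, q n (Vx.P j a h) ≤
    Fl j a + (161 / 162) ^ n * (9 / 8) ^ (j + a) := by
  induction n with
  | zero =>
    intro j a h
    have h1 := q_le_one 0 (Vx.P j a h)
    have h2 := Fl_nonneg j a
    have h3 : (1 : ℝ) ≤ (9 / 8) ^ (j + a) := one_le_pow₀ (by norm_num)
    rw [pow_zero, one_mul]
    linarith
  | succ n ih =>
    intro j a h
    have hpos : (0 : ℝ) ≤ (161 / 162) ^ (n + 1) * (9 / 8) ^ (j + a) := by positivity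
    cases a with
    | zero =>
      cases j with
      | zero =>
        have : q (n + 1) (Vx.P 0 0 h) = 0 := q_o (n + 1)
        rw [this]
        have := Fl_nonneg 0 0
        linarith
      | succ j =>
        simp only [q]
        rw [T_ray]
        have i1 := ih j 0 (Nat.zero_le _)
        have i2 := ih (j + 2) 0 (Nat.zero_le _)
        have i3 := ih (j + 1) 1 (by simp [M])
        have hM : M (j + 1) - 1 = j + 3 := by simp [M]
        simp only [Fl, F0, if_true, one_ne_zero, if_false, hM, add_zero] at i1 i2 i3 ⊢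
        have e1 : ((1 : ℝ) / 2) ^ (j + 2) = (1 / 2) ^ j / 4 := by rw [pow_add]; norm_num; ring
        have e2 : ((1 : ℝ) / 2) ^ (j + 1) = (1 / 2) ^ j / 2 := by rw [pow_succ]; ring
        have e3 : ((1 : ℝ) / 2) ^ (j + 3) = (1 / 2) ^ j / 8 := by rw [pow_add]; norm_num; ring
        have e4 : ((9 : ℝ) / 8) ^ (j + 2) = (9 / 8) ^ j * (81 / 64) := by
          rw [pow_add]; norm_num
        have e4' : ((9 : ℝ) / 8) ^ (j + 1 + 1) = (9 / 8) ^ j * (81 / 64) := e4
        have e5 : ((9 : ℝ) / 8) ^ (j + 1) = (9 / 8) ^ j * (9 / 8) := by rw [pow_succ]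
        have e6 : ((161 : ℝ) / 162) ^ (n + 1) = (161 / 162) ^ n * (161 / 162) := by
          rw [pow_succ]
        rw [e1, e4] at i2
        rw [e2, e3, e4'] at i3
        rw [e2, e5, e6]
        have hu : (0 : ℝ) < (1 / 2) ^ j := by positivity
        have hθ : (0 : ℝ) < (161 / 162) ^ n * (9 / 8) ^ j := by positivity
        generalize ((1 : ℝ) / 2) ^ j = u at *
        generalize ((161 : ℝ) / 162) ^ n = θ at *
        generalize ((9 : ℝ) / 8) ^ j = v at *
        have k1 : θ * (161 / 162) * (v * (9 / 8)) = (161 / 162 * (9 / 8)) * (θ * v) := by ring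
        have k2 : θ * (v * (81 / 64)) = 81 / 64 * (θ * v) := by ring
        rw [k2] at i2 i3
        rw [k1]
        linarith
    | succ a =>
      by_cases hM : a + 2 ≤ M j
      · simp only [q]
        rw [T_leg _ _ _ hM]
        have i1 := ih j a (by omega)
        have i2 := ih j (a + 2) hM
        obtain ⟨b, hb⟩ : ∃ b, M j = a + 2 + b := ⟨M j - (a + 2), by omega⟩
        have hb1 : M j - (a + 1) = b + 1 := by omega
        have hb2 : M j - (a + 2) = b := by omega
        have hb3 : M j - a = b + 2 := by omega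
        have e1 : (if a = 0 then (0 : ℝ) else (1 / 2) ^ (M j - a)) ≤ (1 / 2) ^ b / 4 := by
          rw [hb3]
          split_ifs
          · positivity
          · rw [pow_add]; norm_num; exact le_of_eq (by ring)
        have e2 : ((1 : ℝ) / 2) ^ (b + 1) = (1 / 2) ^ b / 2 := by rw [pow_succ]; ring
        simp only [Fl, Nat.add_eq_zero_iff, OfNat.ofNat_ne_zero, one_ne_zero, and_false, if_false,
          hb1, hb2] at i1 i2 ⊢
        rw [e2]
        have e4 : ((9 : ℝ) / 8) ^ (j + (a + 2)) = (9 / 8) ^ (j + a) * (81 / 64) := by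
          rw [← add_assoc, pow_add]; norm_num
        have e5 : ((9 : ℝ) / 8) ^ (j + (a + 1)) = (9 / 8) ^ (j + a) * (9 / 8) := by
          rw [← add_assoc, pow_succ]
        have e6 : ((161 : ℝ) / 162) ^ (n + 1) = (161 / 162) ^ n * (161 / 162) := by
          rw [pow_succ]
        rw [e4] at i2
        rw [e5, e6]
        have hu : (0 : ℝ) < (1 / 2) ^ b := by positivity
        have hθ : (0 : ℝ) < (161 / 162) ^ n * (9 / 8) ^ (j + a) := by positivity
        generalize ((1 : ℝ) / 2) ^ b = u at *
        generalize ((161 : ℝ) / 162) ^ n = θ at *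
        generalize ((9 : ℝ) / 8) ^ (j + a) = v at *
        generalize (if a = 0 then (0 : ℝ) else (1 / 2) ^ (M j - a)) = y at *
        have k1 : θ * (161 / 162) * (v * (9 / 8)) = (161 / 162 * (9 / 8)) * (θ * v) := by ring
        have k2 : θ * (v * (81 / 64)) = 81 / 64 * (θ * v) := by ring
        rw [k2] at i2
        rw [k1]
        linarith
      · have hMa : M j - (a + 1) = 0 := by omega
        have h1 := q_le_one (n + 1) (Vx.P j (a + 1) h)
        have h2 := F0_pos j
        simp only [Fl, Nat.add_eq_zero_iff, one_ne_zero, and_false, if_false, hMa, pow_zero]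
        linarith

/-- The limit of the failure probabilities. -/
lemma q_tendsto (u : Vx) : Tendsto (fun n => q n u) atTop (𝓝 (⨅ n, q n u)) := by
  apply tendsto_atTop_ciInf
  · exact antitone_nat_of_succ_le (fun n => q_anti_step n u)
  · exact ⟨0, by rintro _ ⟨n, rfl⟩; exact q_nonneg n u⟩

noncomputable def qinf (u : Vx) : ℝ := ⨅ n, q n u

lemma qinf_nonneg (u : Vx) : 0 ≤ qinf u :=
  ge_of_tendsto' (q_tendsto u) (fun n => q_nonneg n u)

lemma qinf_le_one (u : Vx) : qinf u ≤ 1 :=
  le_of_tendsto' (q_tendsto u) (fun n => q_le_one n u)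

lemma qinf_fix (u : Vx) : qinf u = T qinf u := by
  have h1 : Tendsto (fun n => q (n + 1) u) atTop (𝓝 (qinf u)) :=
    (tendsto_add_atTop_iff_nat 1).2 (q_tendsto u)
  have h2 : Tendsto (fun n => T (q n) u) atTop (𝓝 (T qinf u)) := by
    unfold T
    split_ifs
    · exact tendsto_const_nhds
    · refine Tendsto.add (Tendsto.const_mul _ (q_tendsto _)) (Tendsto.const_mul _ ?_)
      refine Tendsto.div_const ?_ _
      exact tendsto_finsetSum _ (fun w _ => q_tendsto w)
  exact tendsto_nhds_unique h1 h2

lemma qinf_leg (j a h) : qinf (Vx.P j a h) ≤ Fl j a := by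
  have h1 : Tendsto (fun n : ℕ => Fl j a + (161 / 162 : ℝ) ^ n * (9 / 8) ^ (j + a)) atTop
      (𝓝 (Fl j a + 0 * (9 / 8) ^ (j + a))) := by
    refine Tendsto.add tendsto_const_nhds (Tendsto.mul_const _ ?_)
    exact tendsto_pow_atTop_nhds_zero_of_lt_one (by norm_num) (by norm_num)
  rw [zero_mul, add_zero] at h1
  exact le_of_tendsto_of_tendsto' (q_tendsto _) h1 (fun n => q_bound n j a h)

lemma qinf_leg_interior (j a : ℕ) (h : a + 1 ≤ M j) : qinf (Vx.P j a (by omega)) ≤ 3 / 4 := by
  refine (qinf_leg j a _).trans ?_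
  have h1 := F0_le j
  unfold Fl
  split_ifs
  · linarith
  · obtain ⟨b, hb⟩ : ∃ b, M j - a = b + 1 := ⟨M j - a - 1, by omega⟩
    rw [hb, pow_succ]
    have : ((1 : ℝ) / 2) ^ b ≤ 1 := pow_le_one₀ (by norm_num) (by norm_num)
    linarith

lemma qinf_tip (j : ℕ) : qinf (tip j) ≤ 11 / 12 := by
  rw [qinf_fix]
  refine (T_le_of_le_one qinf qinf_le_one _).trans ?_
  have h1 : sig (tip j) = Vx.P (j + 1) (j + 3) (by simp [M]) := rfl
  have h2 : qinf (sig (tip j)) ≤ 3 / 4 := by
    rw [h1]; exact qinf_leg_interior (j + 1) (j + 3) (by simp [M])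
  have h3 : max 0 (qinf (sig (tip j))) ≤ 3 / 4 := max_le (by norm_num) h2
  linarith

lemma qinf_le (u : Vx) : qinf u ≤ 35 / 36 := by
  cases u with
  | P j a h =>
    by_cases h1 : a + 1 ≤ M j
    · exact (qinf_leg_interior j a h1).trans (by norm_num)
    · have h2 : a = M j := by omega
      subst h2
      cases j with
      | zero =>
        have := qinf_leg 0 (M 0) h
        have h3 : Fl 0 (M 0) ≤ 1 / 4 := by
          have h4 := F0_le 0
          simpa [Fl, M] using h4
        linarith
      | succ j => exact (qinf_tip j).trans (by norm_num)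
  | W j x h =>
    rw [qinf_fix]
    refine (T_le_of_le_one qinf qinf_le_one _).trans ?_
    have h3 : max 0 (qinf (sig (Vx.W j x h))) ≤ 11 / 12 :=
      max_le (by norm_num) (qinf_tip j)
    linarith

lemma qinf_le_q (n : ℕ) : ∀ u, qinf u ≤ 35 / 36 * q n u := by
  induction n with
  | zero =>
    intro u
    simp only [q]
    split_ifs with h
    · rw [qinf_fix, T, if_pos h]; norm_num
    · have := qinf_le u; linarith
  | succ n ih =>
    intro u
    rw [qinf_fix]
    refine (T_mono _ _ ih u).trans ?_
    rw [T_smul]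
    exact le_rfl

lemma qinf_zero (u : Vx) : qinf u = 0 := by
  have h1 : qinf u ≤ 35 / 36 * qinf u :=
    ge_of_tendsto' (Tendsto.const_mul _ (q_tendsto u)) (fun n => qinf_le_q n u)
  have h2 := qinf_nonneg u
  linarith

end Pool.Agent.Results.MP_037b14_pr.MonotoneFails

open Pool.Agent.Results.MP_037b14_pr.MonotoneFails in
/-- The monotone cop conjecture for the tipsy cop and robber game is false: there are a connected
locally finite graph, parameters `c, r, tc, tr ≥ 0` with sum `1` and a starting position from which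
the cop has a winning strategy but no monotone winning strategy. -/
theorem Pool.Agent.Results.MP_037b14_pr.MonotoneFails.result :
    ∃ (V : Type) (_ : DecidableEq V) (G : SimpleGraph V) (_ : G.LocallyFinite)
      (c r tc tr : ℝ) (C₀ R₀ : V),
      G.Connected ∧ 0 ≤ c ∧ 0 ≤ r ∧ 0 ≤ tc ∧ 0 ≤ tr ∧ c + r + tc + tr = 1 ∧
      (∃ cop, IsCopStrategy G cop ∧ IsWinning G c r tc tr C₀ R₀ cop) ∧
      ¬ ∃ cop, IsCopStrategy G cop ∧ IsMonotone G cop ∧ IsWinning G c r tc tr C₀ R₀ cop := by
  refine ⟨Vx, inferInstance, G, inferInstance, 1 / 3, 0, 2 / 3, 0, Vx.W 0 0 (sz_pos 0), o,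
    G_conn, by norm_num, le_rfl, by norm_num, le_rfl, by norm_num, ?_, ?_⟩
  · refine ⟨fun _ u _ => sig u, fun _ u _ => sig_adj u, ?_⟩
    intro rob _
    simp only [catch_eq]
    have h1 := q_tendsto (Vx.W 0 0 (sz_pos 0))
    have h2 : (⨅ n, q n (Vx.W 0 0 (sz_pos 0))) = 0 := qinf_zero _
    rw [h2] at h1
    simpa using h1.const_sub 1
  · rintro ⟨cop, hcop, hmon, hwin⟩
    have hrob : ∃ rob : ℕ → Vx → Vx → Vx, IsRobberStrategy G rob := by
      have : ∀ v : Vx, ∃ w, G.Adj v w := by
        intro v
        by_cases h : v = o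
        · subst h
          exact ⟨Vx.W 0 0 (sz_pos 0), by rw [G_adj]; simp [adj, o]⟩
        · rcases sig_adj v with h1 | h1
          · exfalso
            have := deg_pos v h
            rcases (SimpleGraph.degree_pos_iff_exists_adj G v).1 (by exact_mod_cast this) with ⟨w, hw⟩
            cases v with
            | P j a h' =>
              cases a with
              | zero =>
                cases j with
                | zero => exact h rfl
                | succ j => simp [sig] at h1
              | succ a => simp [sig] at h1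
            | W j x h' => simp [sig, tip] at h1
          · exact ⟨_, h1⟩
      choose w hw using this
      exact ⟨fun _ _ v => w v, fun _ _ v => hw v⟩
    obtain ⟨rob, hrob⟩ := hrob
    have h1 := hwin rob hrob
    have h2 : (1 : ℝ) ≤ f (Vx.W 0 0 (sz_pos 0)) :=
      le_of_tendsto' h1 (fun n => monotone_bound cop rob hcop hmon n 0 _)
    simp only [f] at h2
    norm_num at h2
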